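import Pool.Agent.Helper10.EN.S12
import Pool.Agent.Helper15.SI.P7
import Pool.Agent.Helper29.SI.LevB
import Pool.Agent.Helper78.TR.Defs

/-! Palindromes with at most three prime factors, prescribed first digits and a residue class:
definitions. -/

set_option autoImplicit false

namespace Pool.Agent.Helper10.TW

open Finset Filter Pool.Agent.Helper10 Pool.Agent.Helper10.P5 Pool.Agent.Helper10.P4
  Pool.Agent.Helper10.P3 Pool.Agent.Helper10.SQ Pool.Agent.Helper10.EN Pool.Agent.Helper15.SI

/-- the weight of a number -/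
noncomputable def wN (lam : ℝ) (N : ℕ) : ℝ :=
  1 - 8645 / 10000 * ∑ p ∈ (PC ((1000 : ℝ) / 5216 * lam) (5137 / 5216 * lam)).filter
    (fun p => p ∣ N), (1 - Real.log p / (5137 / 5216 * lam))

/-- the members of a set in a residue class -/
def cls (E : Finset ℕ) (m a : ℕ) : Finset ℕ := E.filter (fun N => N ≡ a [MOD m])

/-- the remainders for symmetric strings of length `2 * m + 1` -/
noncomputable def rS (m q : ℕ) : ℝ :=
  10 * (10 ^ m / q * ∑ d ∈ q.divisors.erase 1, Psi5 100 m d)

/-- the property we want -/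
def good (N : ℕ) : Prop := Squarefree N ∧ N.primeFactorsList.length ≤ 3 ∧
      ∀ p : ℕ, p.Prime → p ∣ N → N < p ^ 15

/-- large square factor -/
def bsq (n N : ℕ) : Prop := ∃ d : ℕ, 10 ^ (n / 10) ≤ d ∧ d.Coprime 10 ∧ d ^ 2 ∣ N

end Pool.Agent.Helper10.TW
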