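import Pool.Agent.Helper10.EN.S14
import Pool.Agent.Helper10.TW.Defs

/-! TW-F: the weighted sum over the sifted members. -/

set_option autoImplicit false

namespace Pool.Agent.Helper10.TW

open Finset Filter Pool.Agent.Helper10 Pool.Agent.Helper10.P5 Pool.Agent.Helper10.P4
  Pool.Agent.Helper10.P3 Pool.Agent.Helper10.SQ Pool.Agent.Helper10.EN Pool.Agent.Helper15.SI

private lemma sb (E : Finset ℕ) (m a z : ℕ) (N : ℕ) (hN : N ∈ sift (cls E m a) (fun N => N) z) :
    N ∈ cls E m a := by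
  unfold sift at hN
  exact (Finset.mem_filter.mp hN).1

/-- the prime factors of a sifted member are large -/
private lemma prm (E : Finset ℕ) (m a : ℕ) (lam : ℝ) (N : ℕ) (hc : N.Coprime 10)
    (hN : N ∈ sift (cls E m a) (fun N => N) (zf ((1000 : ℝ) / 5216 * lam))) (p : ℕ)
    (hp : p.Prime) (hpN : p ∣ N) :
    p.Coprime 10 ∧ (1000 : ℝ) / 5216 * lam < Real.log p := by
  have hp10 : p.Coprime 10 := Nat.Coprime.coprime_dvd_left hpN hc
  refine ⟨hp10, ?_⟩
  by_contra hcon
  push Not at hcon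
  unfold sift at hN
  rw [Finset.mem_filter] at hN
  exact hN.2 p ((mem_PP_zf _ p).mpr ⟨⟨hp, hp10⟩, hcon⟩) hpN

private lemma wN_le (lam : ℝ) (h : 0 < lam) (N : ℕ) : wN lam N ≤ 1 := by
  unfold wN
  have : 0 ≤ ∑ p ∈ (PC ((1000 : ℝ) / 5216 * lam) (5137 / 5216 * lam)).filter
    (fun p => p ∣ N), (1 - Real.log p / (5137 / 5216 * lam)) := by
    apply Finset.sum_nonneg
    intro p hp
    rw [Finset.mem_filter, mem_PC] at hp
    have : Real.log p / (5137 / 5216 * lam) ≤ 1 := by
      rw [div_le_one (by positivity)]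
      exact hp.1.2.2
    linarith
  linarith

/-- size of a palindrome -/
private lemma pal_log (n N : ℕ) (hN : N ∈ Pal n) (h0 : 0 < N) :
    Real.log N ≤ (2 * n + 1) * Real.log 10 := by
  have h5 : Real.log ((10 : ℝ) ^ (2 * n + 1)) = (2 * n + 1) * Real.log 10 := by
    rw [Real.log_pow]
    push_cast
    ring
  rw [← h5]
  apply Real.log_le_log (by exact_mod_cast h0)
  have h1 : N < 10 ^ (2 * n + 1) := lt_of_isPal _ _ ((mem_Pal n N).mp hN)
  exact_mod_cast h1.le

/-- the weight of a squarefree member with many prime factors -/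
private lemma wN_neg (n : ℕ) (E : Finset ℕ) (m a : ℕ) (lam : ℝ) (hlam0 : 0 < lam)
    (hl1 : (2 * (n : ℝ) + 1) * Real.log 10 ≤ 2.84326 * (5137 / 5216 * lam)) (N : ℕ)
    (hP : N ∈ Pal n) (hc : N.Coprime 10)
    (hN : N ∈ sift (cls E m a) (fun N => N) (zf ((1000 : ℝ) / 5216 * lam)))
    (hsq : Squarefree N) (h4 : 4 ≤ N.primeFactorsList.length) :
    wN lam N ≤ 0 := by
  classical
  have hY : 0 < 5137 / 5216 * lam := by positivity
  have hN0 : 0 < N := Nat.pos_of_ne_zero hsq.ne_zero
  have h1 := comb3 N (5137 / 5216 * lam) hN0.ne' hY (by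
    intro p hp _ hsq2
    have h2 := hsq p (by rwa [← pow_two])
    exact hp.one_lt.ne' (Nat.isUnit_iff.mp h2))
  have h3 : Real.log N / (5137 / 5216 * lam) ≤ 2.84326 := by
    rw [div_le_iff₀ hY]
    exact (pal_log n N hP hN0).trans hl1
  have h4R : (4 : ℝ) ≤ N.primeFactorsList.length := by exact_mod_cast h4
  have h5 : ∑ p ∈ N.primeFactors.filter (fun p : ℕ => Real.log (p : ℝ) ≤ 5137 / 5216 * lam),
      (1 - Real.log p / (5137 / 5216 * lam)) ≤
      ∑ p ∈ (PC ((1000 : ℝ) / 5216 * lam) (5137 / 5216 * lam)).filter (fun p => p ∣ N),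
          (1 - Real.log p / (5137 / 5216 * lam)) := by
    apply Finset.sum_le_sum_of_subset_of_nonneg
    · intro p hp
      rw [Finset.mem_filter] at hp
      have hpp := Nat.prime_of_mem_primeFactors hp.1
      have hpd := Nat.dvd_of_mem_primeFactors hp.1
      have h9 := prm E m a lam N hc hN p hpp hpd
      rw [Finset.mem_filter, mem_PC]
      exact ⟨⟨⟨hpp, h9.1⟩, h9.2, hp.2⟩, hpd⟩
    · intro p hp _
      rw [Finset.mem_filter, mem_PC] at hp
      have : Real.log p / (5137 / 5216 * lam) ≤ 1 := by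
        rw [div_le_one hY]
        exact hp.1.2.2
      linarith
  unfold wN
  linarith

/-- a sifted member is smaller than the power `15` of each of its prime factors -/
private lemma lrg (n : ℕ) (E : Finset ℕ) (m a : ℕ) (lam : ℝ)
    (hl0 : 0 < lam)
    (hl1 : (2 * (n : ℝ) + 1) * Real.log 10 ≤ 2.84326 * (5137 / 5216 * lam)) (N : ℕ)
    (hP : N ∈ Pal n) (hc : N.Coprime 10) (hN0 : 0 < N)
    (hN : N ∈ sift (cls E m a) (fun N => N) (zf ((1000 : ℝ) / 5216 * lam))) (p : ℕ)
    (hp : p.Prime) (hpN : p ∣ N) : N < p ^ 15 := by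
  have h1 := (prm E m a lam N hc hN p hp hpN).2
  have h2 := pal_log n N hP hN0
  have hp0 : (0 : ℝ) < p := by exact_mod_cast hp.pos
  have h3 : Real.log N < Real.log ((p : ℝ) ^ 15) := by
    rw [Real.log_pow]
    push_cast
    linarith
  have hF0 : (0 : ℝ) < N := by exact_mod_cast hN0
  have h6 := (Real.log_lt_log_iff hF0 (by positivity)).mp h3
  exact_mod_cast h6

/-- the prime factors exceed `10 ^ (n / 10)` -/
private lemma bigp (n : ℕ) (hn : 10 ^ 6 ≤ n) (E : Finset ℕ) (m a : ℕ) (lam : ℝ)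
    (hl1 : (2 * (n : ℝ) + 1) * Real.log 10 ≤ 2.84326 * (5137 / 5216 * lam)) (N : ℕ)
    (hc : N.Coprime 10)
    (hN : N ∈ sift (cls E m a) (fun N => N) (zf ((1000 : ℝ) / 5216 * lam))) (p : ℕ)
    (hp : p.Prime) (hpN : p ∣ N) : 10 ^ (n / 10) ≤ p := by
  have hnR : (10 : ℝ) ^ 6 ≤ n := by exact_mod_cast hn
  have h1 := (prm E m a lam N hc hN p hp hpN).2
  have hl0 := lg10_pos
  have hp0 : (0 : ℝ) < p := by exact_mod_cast hp.pos
  have h3 : Real.log ((10 : ℝ) ^ (n / 10)) < Real.log p := by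
    rw [Real.log_pow]
    have h4 : ((n / 10 : ℕ) : ℝ) ≤ (n : ℝ) / 10 := Nat.cast_div_le
    have h5 : ((n / 10 : ℕ) : ℝ) * Real.log 10 ≤ 1000 / 5216 * lam := by
      have h6 : ((n / 10 : ℕ) : ℝ) * Real.log 10 ≤ (n : ℝ) / 10 * Real.log 10 :=
        mul_le_mul_of_nonneg_right h4 hl0.le
      have h7 : 0 < (n : ℝ) * Real.log 10 := by positivity
      nlinarith
    linarith
  have h5 := (Real.log_lt_log_iff (by positivity) hp0).mp h3
  have h6 : 10 ^ (n / 10) < p := by exact_mod_cast h5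
  exact h6.le

open Classical in
/-- TW-F. -/
theorem sum_wN (n m a : ℕ) (E : Finset ℕ) (lam : ℝ) (hE : ∀ N ∈ E, N ∈ Pal n ∧ N.Coprime 10)
    (hn : 10 ^ 6 ≤ n) (hlam : 0 < lam)
    (h1 : (2 * (n : ℝ) + 1) * Real.log 10 ≤ 2.84326 * (5137 / 5216 * lam)) :
    ∑ N ∈ sift (cls E m a) (fun N => N) (zf ((1000 : ℝ) / 5216 * lam)), wN lam N ≤
      (((cls E m a).filter good).card : ℝ) + ((E.filter (bsq n)).card : ℝ) := by
  set S := sift (cls E m a) (fun N => N) (zf ((1000 : ℝ) / 5216 * lam)) with hS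
  have hpt : ∀ N ∈ S, wN lam N ≤ (if N ∈ (cls E m a).filter good then 1 else 0) +
      (if N ∈ E.filter (bsq n) then 1 else 0) := by
    intro N hN
    have hcl := sb E m a _ N hN
    have hNE : N ∈ E := by
      unfold cls at hcl
      exact (Finset.mem_filter.mp hcl).1
    obtain ⟨hP, hc⟩ := hE N hNE
    have hN0 : 0 < N := by
      rcases Nat.eq_zero_or_pos N with h | h
      · rw [h] at hc
        norm_num at hc
      · exact h
    have hw1 := wN_le lam hlam N
    by_cases hsq : Squarefree N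
    · by_cases h3 : N.primeFactorsList.length ≤ 3
      · have : N ∈ (cls E m a).filter good := by
          rw [Finset.mem_filter]
          exact ⟨hcl, hsq, h3, fun p hp hpN => lrg n E m a lam hlam h1 N hP hc hN0 hN p hp hpN⟩
        rw [if_pos this]
        split_ifs <;> linarith
      · have := wN_neg n E m a lam hlam h1 N hP hc hN hsq (by omega)
        split_ifs <;> linarith
    · have : N ∈ E.filter (bsq n) := by
        rw [Nat.squarefree_iff_prime_squarefree] at hsq
        push Not at hsq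
        obtain ⟨p, hp, hpN⟩ := hsq
        have hpd : p ∣ N := (Dvd.intro p rfl).trans hpN
        rw [Finset.mem_filter]
        exact ⟨hNE, p, bigp n hn E m a lam h1 N hc hN p hp hpd,
          (prm E m a lam N hc hN p hp hpd).1, by rwa [pow_two]⟩
      rw [if_pos this]
      split_ifs <;> linarith
  refine (Finset.sum_le_sum hpt).trans ?_
  rw [Finset.sum_add_distrib]
  have hcount : ∀ B : Finset ℕ, ∑ N ∈ S, (if N ∈ B then (1 : ℝ) else 0) ≤ (B.card : ℝ) := by
    intro B
    rw [← Finset.sum_filter, Finset.sum_const, nsmul_eq_mul, mul_one]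
    have : (S.filter (fun N => N ∈ B)).card ≤ B.card := by
      apply Finset.card_le_card
      intro N hN
      exact (Finset.mem_filter.mp hN).2
    exact_mod_cast this
  exact add_le_add (hcount _) (hcount _)

end Pool.Agent.Helper10.TW
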